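import Pool.Agent.Helper99.WP.GoalsW

/-!
# Project WP (MP_f41a60_pr): packet WP-TRM, termination of the popping
-/

open Finset

namespace Pool.Agent.Helper3.WP

open Pool.Agent.Helper99.WP
open Pool.Agent.Helper99.ERW

theorem trm_le {V : Type} [DecidableEq V] (ξ : V → ℕ → Option V) (n m : V → ℕ)
    (h : Reach ξ n m) : n ≤ m := by
  induction h with
  | refl => exact le_refl _
  | tail _ hst ih =>
    obtain ⟨C, _, rfl⟩ := hst
    refine ih.trans fun y => ?_
    unfold pop
    split_ifs
    · exact Nat.le_succ _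
    · exact le_refl _

theorem trm_bd {V : Type} [DecidableEq V] (N : ℕ) (ξ : V → ℕ → Option V) (m : V → ℕ)
    (hT : Trunc N ξ) (h : Reach ξ 0 m) : ∀ y, m y ≤ N := by
  induction h with
  | refl => exact fun y => Nat.zero_le _
  | @tail b c _ hst ih =>
    obtain ⟨C, hC, rfl⟩ := hst
    intro y
    unfold pop
    split_ifs with hy
    · obtain ⟨z, _, hz⟩ := hC.2.1 y hy
      have hlt : b y < N := by
        by_contra hge
        have h0 := hT y (b y) (not_lt.1 hge)
        have hz' : ξ y (b y) = some z := hz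
        rw [h0] at hz'
        exact absurd hz' (by simp)
      exact hlt
    · exact ih y

theorem trm_exists {V : Type} [Fintype V] [DecidableEq V] (N : ℕ) (ξ : V → ℕ → Option V)
    (hT : Trunc N ξ) : ∀ (k : ℕ) (m : V → ℕ), Reach ξ 0 m →
      N * Fintype.card V - ∑ y, m y = k → ∃ n, IsTerm ξ n := by
  intro k
  induction k using Nat.strong_induction_on with
  | _ k ih =>
    intro m hm hk
    by_cases hA : Acyc (top ξ m)
    · exact ⟨m, hm, hA⟩
    · have hA' : ∃ C, IsCyc (top ξ m) C := by
        by_contra hne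
        exact hA fun C hC => hne ⟨C, hC⟩
      obtain ⟨C, hC⟩ := hA'
      have hst : Reach ξ 0 (pop m C) := Relation.ReflTransGen.tail hm ⟨C, hC, rfl⟩
      have hb := trm_bd N ξ _ hT hst
      have hsum : ∑ y, pop m C y ≤ N * Fintype.card V := by
        calc ∑ y, pop m C y ≤ ∑ _y : V, N := Finset.sum_le_sum fun y _ => hb y
          _ = N * Fintype.card V := by
            rw [Finset.sum_const, Finset.card_univ, smul_eq_mul, mul_comm]
      have hlt : ∑ y, m y < ∑ y, pop m C y := by
        obtain ⟨y0, hy0⟩ := hC.1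
        apply Finset.sum_lt_sum
        · intro y _
          unfold pop
          split_ifs
          · exact Nat.le_succ _
          · exact le_refl _
        · refine ⟨y0, Finset.mem_univ _, ?_⟩
          unfold pop
          rw [if_pos hy0]
          exact Nat.lt_succ_self _
      refine ih (N * Fintype.card V - ∑ y, pop m C y) ?_ _ hst rfl
      omega

theorem TRM : TRM_stmt := by
  intro V _ _ N
  have h3 : ∀ ξ : V → ℕ → Option V, Trunc N ξ → IsTerm ξ (nst ξ) := by
    intro ξ hT
    have h : ∃ n, IsTerm ξ n := trm_exists N ξ hT _ 0 Relation.ReflTransGen.refl rfl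
    unfold nst
    rw [dif_pos h]
    exact Classical.choose_spec h
  have h4 : ∀ a : V → Fin N → Option V, Trunc N (Pool.Agent.Helper99.WP.ext a) := by
    intro a y k hk
    unfold Pool.Agent.Helper99.WP.ext
    rw [dif_neg (not_lt.2 hk)]
  exact ⟨fun ξ n m h => trm_le ξ n m h, fun ξ m hT h => trm_bd N ξ m hT h, h3, fun a =>
    ⟨h4 a, h3 _ (h4 a), trm_bd N _ _ (h4 a) (h3 _ (h4 a)).1⟩⟩

end Pool.Agent.Helper3.WP
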